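import Pool.Agent.P.MP_5bcbab_al.Low

namespace Pool.Agent.Results.MP_5bcbab_al.CyclicHomology

open Pool.Agent.P.MP_5bcbab_al

theorem result (n : ℕ) (hn : 1 ≤ n) (q : ℂ) (hq : q ≠ 0) :
    (∀ k : ℕ, dimHC (RingQuot (HRel n q)) k =
      if k < 3 * n then Cardinal.aleph0 else if Even k then 1 else 0) ∧
    dimHP (RingQuot (HRel n q)) 0 = 1 ∧ dimHP (RingQuot (HRel n q)) 1 = 0 :=
  (hgr hq n).main _ (htor hq n) (by omega) fun _ hk => inf_all hq hk

end Pool.Agent.Results.MP_5bcbab_al.CyclicHomology
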